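import Pool.Agent.Lib_helper34.MP.Mountain

/-!
# Exits: a connected low set which leaves a closed part meets the exit set inside the part
-/

set_option autoImplicit false

open Filter Topology Set Pool.Agent.MP

namespace Pool.Agent.KS

/-- in a compact Hausdorff space a component which misses a closed set is separated from it by a
clopen set -/
theorem clopen_of_component {X : Type*} [TopologicalSpace X] [T2Space X] [CompactSpace X] (x : X)
    {F : Set X} (hF : IsClosed F) (h : ∀ y ∈ connectedComponent x, y ∉ F) :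
    ∃ A : Set X, IsClopen A ∧ x ∈ A ∧ ∀ y ∈ A, y ∉ F := by
  have hne : Nonempty {s : Set X // IsClopen s ∧ x ∈ s} := ⟨⟨univ, isClopen_univ, mem_univ x⟩⟩
  have hdir : Directed (· ⊇ ·) (fun s : {s : Set X // IsClopen s ∧ x ∈ s} => s.1) := by
    intro s t
    exact ⟨⟨s.1 ∩ t.1, s.2.1.inter t.2.1, s.2.2, t.2.2⟩, inter_subset_left, inter_subset_right⟩
  obtain ⟨s, hs⟩ := exists_subset_nhds_of_isCompact' hdir
    (fun s => s.2.1.isClosed.isCompact) (fun s => s.2.1.isClosed) (U := Fᶜ) fun y hy => by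
      rw [← connectedComponent_eq_iInter_isClopen] at hy
      exact hF.isOpen_compl.mem_nhds (h y hy)
  exact ⟨s.1, s.2.1, s.2.2, fun y hy => hs hy⟩

/-- **Exits of low sets** -/
theorem exit_of_low {D DM E : Set ℂ} {h : ℂ → ℝ} {a b : ℂ} {G : ℝ} (hD : IsCompact D)
    (hh : ContinuousOn h D) (hDM : IsClosed DM) (hE : IsClosed E) (hsub : DM ⊆ D) (ha : a ∈ DM)
    (hb : b ∉ DM) (hex : ∀ z ∈ DM, z ∉ E → ∃ N ∈ nhds z, D ∩ N ⊆ DM) (hl : Low D h a b G) :
    ∃ e ∈ E ∩ DM, Low DM h a e G := by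
  obtain ⟨S, hSp, hSD, haS, hbS, hSG⟩ := hl
  set K : Set ℂ := closure S with hK
  have hKp : IsPreconnected K := hSp.closure
  have hL0 : IsClosed (D ∩ h ⁻¹' Iic G) := hh.preimage_isClosed_of_isClosed hD.isClosed isClosed_Iic
  have hKL : K ⊆ D ∩ h ⁻¹' Iic G := closure_minimal (fun x hx => ⟨hSD hx, hSG x hx⟩) hL0
  have hKD : K ⊆ D := fun x hx => (hKL hx).1
  have hKc : IsCompact K := hD.of_isClosed_subset isClosed_closure hKD
  set L : Set ℂ := K ∩ DM with hL
  have hLc : IsCompact L := hKc.inter_right hDM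
  have haL : a ∈ L := ⟨subset_closure haS, ha⟩
  have hbK : b ∈ K := subset_closure hbS
  set C : Set ℂ := connectedComponentIn L a with hC
  by_cases hCE : ∃ e ∈ C, e ∈ E
  · obtain ⟨e, heC, heE⟩ := hCE
    have hCL : C ⊆ L := connectedComponentIn_subset _ _
    exact ⟨e, ⟨heE, (hCL heC).2⟩, C, isPreconnected_connectedComponentIn,
      fun x hx => (hCL hx).2, mem_connectedComponentIn haL, heC,
      fun x hx => (hKL (hCL hx).1).2⟩
  · exfalso
    push Not at hCE
    have : CompactSpace L := isCompact_iff_compactSpace.1 hLc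
    obtain ⟨A, hA, haA, hAE⟩ := clopen_of_component (⟨a, haL⟩ : L)
      (F := Subtype.val ⁻¹' E) (hE.preimage continuous_subtype_val) (by
        intro y hy hyE
        refine hCE y.1 ?_ hyE
        rw [hC, connectedComponentIn_eq_image haL]
        exact ⟨y, hy, rfl⟩)
    obtain ⟨U, hU, hUA⟩ := isOpen_induced_iff.1 hA.isOpen
    set A' : Set ℂ := Subtype.val '' A with hA'
    have hA'c : IsClosed A' := (hA.isClosed.isCompact.image continuous_subtype_val).isClosed
    have hmem : ∀ z ∈ L, z ∈ U → z ∈ A' := by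
      intro z hz hzU
      refine ⟨⟨z, hz⟩, ?_, rfl⟩
      rw [← hUA]
      exact hzU
    set O : Set ℂ := interior (A' ∪ Kᶜ) with hO
    have hAO : ∀ z ∈ A', z ∈ O := by
      rintro _ ⟨z, hz, rfl⟩
      have hzE : z.1 ∉ E := hAE z hz
      obtain ⟨N, hN, hDN⟩ := hex z.1 z.2.2 hzE
      have hzU : z.1 ∈ U := by
        have : z ∈ Subtype.val ⁻¹' U := by rw [hUA]; exact hz
        exact this
      rw [hO, mem_interior_iff_mem_nhds]
      filter_upwards [hN, hU.mem_nhds hzU] with w hw1 hw2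
      by_cases hwK : w ∈ K
      · exact Or.inl (hmem w ⟨hwK, hDN ⟨hKD hwK, hw1⟩⟩ hw2)
      · exact Or.inr hwK
    have hKO : ∀ z ∈ K, z ∈ O → z ∈ A' := by
      intro z hz hzO
      rcases interior_subset hzO with h1 | h1
      · exact h1
      · exact absurd hz h1
    have haA' : a ∈ A' := ⟨⟨a, haL⟩, haA, rfl⟩
    have hbA' : b ∉ A' := by
      rintro ⟨y, _, hy⟩
      exact hb (hy ▸ y.2.2)
    obtain ⟨z, hzK, hzO, hzA⟩ := hKp O A'ᶜ isOpen_interior hA'c.isOpen_compl
      (fun z _ => by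
        by_cases hz : z ∈ A'
        · exact Or.inl (hAO z hz)
        · exact Or.inr hz)
      ⟨a, subset_closure haS, hAO a haA'⟩ ⟨b, hbK, hbA'⟩
    exact hzA (hKO z hzK hzO)

end Pool.Agent.KS
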